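import Pool.Agent.H979.QIP.PP3

set_option autoImplicit false

open MeasureTheory ProbabilityTheory Filter Topology Set
open scoped ENNReal NNReal

namespace Pool.Agent.Results.MP_b460e8_pr.CLT

open Pool.Agent.H979.QIP

/-- The quenched central limit theorem for the random walk on a discrete point process in
dimension `d ≥ 2`, under second moments of the distances `f_e` only. -/
theorem result (d : ℕ) (hd : 2 ≤ d) (Q : Measure (Cfg d)) [IsProbabilityMeasure Q]
    (hA1 : ∀ i : Fin d, Ergodic (th (Pi.single i 1)) Q)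
    (hA2 : Q {ω | ∀ x, ω x = false} < 1)
    (hM : ∀ (i : Fin d) (s : Bool),
      ∫⁻ ω, (fe ω (uv i s) : ℝ≥0∞) ^ 2 ∂(ProbabilityTheory.cond Q (Oc d)) < ∞) :
    ∃ (D : Matrix (Fin d) (Fin d) ℝ), D.PosDef ∧
    ∃ (γ : Measure (Fin d → ℝ)), IsProbabilityMeasure γ ∧
      (∀ u : Fin d → ℝ, ∫ x, Complex.exp (Complex.I * ((∑ a, u a * x a : ℝ) : ℂ)) ∂γ =
        Complex.exp (-((∑ a, ∑ b, u a * D a b * u b : ℝ) : ℂ) / 2)) ∧
      ∀ᵐ ω ∂(ProbabilityTheory.cond Q (Oc d)),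
        (∃ (Ξ : Type) (_ : MeasurableSpace Ξ) (Pw : Measure Ξ) (X : ℕ → Ξ → (Fin d → ℤ)),
          IsProbabilityMeasure Pw ∧ IsWalk ω Pw X) ∧
        ∀ (Ξ : Type) (_ : MeasurableSpace Ξ) (Pw : Measure Ξ) (X : ℕ → Ξ → (Fin d → ℤ)),
          IsProbabilityMeasure Pw → IsWalk ω Pw X →
          ∀ g : (Fin d → ℝ) → ℝ, Continuous g → (∃ C : ℝ, ∀ x, |g x| ≤ C) →
            Tendsto (fun n : ℕ => ∫ ξ, g (fun i => (X n ξ i : ℝ) / √(n : ℝ)) ∂Pw) atTop
              (𝓝 (∫ x, g x ∂γ)) := by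
  obtain ⟨S, hS, Ω', mΩ', P', hP', W, hWc, hWm, hW, h⟩ :=
    skor hd hA1 hA2 (p := 2) le_rfl (fun i s => by
      have := hM i s
      have e : ∀ n : ℕ, (n : ℝ≥0∞) ^ (2 : ℝ) = (n : ℝ≥0∞) ^ 2 := fun n => by
        rw [← ENNReal.rpow_natCast]; norm_num
      simp only [e]
      exact this.ne)
  haveI := hP'
  refine ⟨S, hS, P'.map (W 1), Measure.isProbabilityMeasure_map (hWm 1).aemeasurable, fun u => ?_, ?_⟩
  · have h1 : Measurable (fun x : Fin d → ℝ =>
        Complex.exp (Complex.I * ((∑ a, u a * x a : ℝ) : ℂ))) := by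
      refine Continuous.measurable ?_
      fun_prop
    rw [integral_map (hWm 1).aemeasurable h1.aestronglyMeasurable]
    have h2 := hW 1 (fun _ => 1) (fun _ => u) (fun _ => zero_le_one)
    simp only [Finset.univ_unique, Finset.sum_singleton, min_self, one_mul] at h2
    exact h2
  · filter_upwards [h] with ω hω
    refine ⟨hω.1, fun Ξ mΞ Pw X hPw hX g hg hb => ?_⟩
    rw [integral_map (hWm 1).aemeasurable hg.measurable.aestronglyMeasurable]
    exact (hω.2 Ξ mΞ Pw X hPw hX).2 g hg hb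

end Pool.Agent.Results.MP_b460e8_pr.CLT
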